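import Pool.Agent.Helper62.LH.StS

/-!
Project LH (MP_087a81_gt), module CFR: change to an orthonormal frame.
-/

set_option autoImplicit false

namespace Pool.Agent.Helper99.LH

open Helper62.LH
open Set Filter Topology MeasureTheory
open scoped ContDiff

theorem expand_basis' {n : ℕ} (v : E n) : v = ∑ i, v i • (ee i : E n) := by
  ext k
  simp [ee, Pi.single_apply]

theorem multi_expand {n k : ℕ} (f : Fin n → E n) (X : MultilinearMap ℝ (fun _ : Fin k => E n) ℝ)
    (I : Fin k → Fin n) : X (fun a => f (I a))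
      = ∑ I' : Fin k → Fin n, (∏ a, f (I a) (I' a)) * X (fun a => ee (I' a)) := by
  have h1 : (fun a => f (I a)) = fun a => ∑ i, (f (I a)) i • (ee i : E n) := by
    funext a
    exact expand_basis' (f (I a))
  rw [h1, MultilinearMap.map_sum]
  refine Finset.sum_congr rfl fun I' _ => ?_
  rw [MultilinearMap.map_smul_univ, smul_eq_mul]

theorem hCfr : StCfr := by
  intro n g x f hf k X Y
  have h1 : ∀ I : Fin k → Fin n, X (fun a => f (I a)) * Y (fun a => f (I a))
      = ∑ I' : Fin k → Fin n, ∑ J' : Fin k → Fin n,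
        (∏ a, f (I a) (I' a) * f (I a) (J' a)) *
          (X (fun a => ee (I' a)) * Y (fun a => ee (J' a))) := by
    intro I
    rw [multi_expand f X I, multi_expand f Y I, Finset.sum_mul_sum]
    refine Finset.sum_congr rfl fun I' _ => Finset.sum_congr rfl fun J' _ => ?_
    rw [Finset.prod_mul_distrib]
    ring
  have h3 : ∑ I : Fin k → Fin n, ∑ I' : Fin k → Fin n, ∑ J' : Fin k → Fin n,
      (∏ a, f (I a) (I' a) * f (I a) (J' a)) *
        (X (fun a => ee (I' a)) * Y (fun a => ee (J' a)))
      = ∑ I' : Fin k → Fin n, ∑ J' : Fin k → Fin n, ∑ I : Fin k → Fin n,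
      (∏ a, f (I a) (I' a) * f (I a) (J' a)) *
        (X (fun a => ee (I' a)) * Y (fun a => ee (J' a))) := by
    rw [Finset.sum_comm]
    refine Finset.sum_congr rfl fun I' _ => ?_
    rw [Finset.sum_comm]
  rw [Finset.sum_congr rfl fun I _ => h1 I, h3]
  refine Finset.sum_congr rfl fun I' _ => Finset.sum_congr rfl fun J' _ => ?_
  rw [← Finset.sum_mul]
  congr 1
  have h2 := Finset.prod_univ_sum (fun _ : Fin k => (Finset.univ : Finset (Fin n)))
    (fun (a : Fin k) (c : Fin n) => f c (I' a) * f c (J' a))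
  rw [Fintype.piFinset_univ] at h2
  rw [← h2]
  refine Finset.prod_congr rfl fun a _ => ?_
  exact hf.inv (I' a) (J' a)

end Pool.Agent.Helper99.LH
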