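import Pool.Agent.Helper62.LH.StV

/-!
Project LH (MP_087a81_gt), module SHP: raising the index.
-/

set_option autoImplicit false

namespace Pool.Agent.Helper99.LH

open Helper62.LH
open Set Filter Topology MeasureTheory
open scoped ContDiff

section shp

variable {n : ℕ}

theorem expand_basis (v : E n) : v = ∑ i, v i • (ee i : E n) := by
  ext k
  simp [ee, Pi.single_apply]

theorem gm_det_ne {g : E n → Bl n} (hg : IsMet g) (x : E n) : (gm g x).det ≠ 0 := by
  intro h0
  obtain ⟨v, hv, hMv⟩ := Matrix.exists_mulVec_eq_zero_iff.mpr h0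
  let V : E n := WithLp.toLp 2 v
  have hV : V ≠ 0 := by
    intro h
    apply hv
    funext i
    have := congrArg (fun w : E n => w i) h
    simpa [V] using this
  have h1 := hg.pos x V hV
  have h2 : g x V V = ∑ i, ∑ j, v i * (v j * g x (ee i) (ee j)) := by
    have e : V = ∑ i, v i • (ee i : E n) := by
      have := expand_basis V
      simpa [V] using this
    rw [e]
    simp only [map_sum, map_smul, sum_apply, smul_apply, smul_eq_mul, Finset.mul_sum]
    rw [Finset.sum_comm]
    refine Finset.sum_congr rfl fun i _ => Finset.sum_congr rfl fun j _ => ?_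
    ring
  have h3 : ∀ i, ∑ j, v j * g x (ee i) (ee j) = 0 := by
    intro i
    have := congrFun hMv i
    simp only [Matrix.mulVec, dotProduct, gm, Matrix.of_apply, Pi.zero_apply] at this
    rw [← this]
    exact Finset.sum_congr rfl fun j _ => mul_comm _ _
  have h4 : g x V V = 0 := by
    rw [h2]
    refine Finset.sum_eq_zero fun i _ => ?_
    rw [← Finset.mul_sum, h3, mul_zero]
  linarith

theorem contDiff_det {m : WithTop ℕ∞} (M : E n → Matrix (Fin n) (Fin n) ℝ)
    (hM : ∀ i j, ContDiff ℝ m fun x => M x i j) : ContDiff ℝ m fun x => (M x).det := by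
  simp only [Matrix.det_apply']
  refine ContDiff.sum fun σ _ => ?_
  exact contDiff_const.mul (contDiff_prod fun i _ => hM (σ i) i)

theorem gi_smooth {g : E n → Bl n} (hg : IsMet g) (i j : Fin n) :
    ContDiff ℝ ∞ fun x => gi g x i j := by
  have hgm : ∀ a b, ContDiff ℝ ∞ fun x => gm g x a b := by
    intro a b
    exact (hg.smooth.clm_apply contDiff_const).clm_apply contDiff_const
  have hdet : ContDiff ℝ ∞ fun x => (gm g x).det := contDiff_det _ hgm
  have hadj : ContDiff ℝ ∞ fun x => (gm g x).adjugate i j := by
    simp only [Matrix.adjugate_apply]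
    refine contDiff_det _ fun a b => ?_
    by_cases h : a = j
    · subst h
      simp only [Matrix.updateRow_self]
      exact contDiff_const
    · simp only [Matrix.updateRow_ne h]
      exact hgm a b
  have e : (fun x => gi g x i j) = fun x => ((gm g x).det)⁻¹ * (gm g x).adjugate i j := by
    funext x
    unfold gi
    rw [Matrix.inv_def, Ring.inverse_eq_inv', Matrix.smul_apply, smul_eq_mul]
  rw [e]
  exact (hdet.inv fun x => gm_det_ne hg x).mul hadj

theorem shp_spec {g : E n → Bl n} (hg : IsMet g) (x : E n) (a : Dl n) (v : E n) :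
    g x (shp g x a) v = a v := by
  have hk : ∀ k, g x (shp g x a) (ee k) = a (ee k) := by
    intro k
    unfold shp
    simp only [map_sum, map_smul, sum_apply, smul_apply, smul_eq_mul]
    have h1 : gm g x * gi g x = 1 := Matrix.mul_nonsing_inv _ (gm_det_ne hg x).isUnit
    have h2 : ∀ j, ∑ i, g x (ee i) (ee k) * gi g x i j = if k = j then 1 else 0 := by
      intro j
      have h3 := congrFun (congrFun h1 k) j
      rw [Matrix.mul_apply, Matrix.one_apply] at h3
      rw [← h3]
      refine Finset.sum_congr rfl fun i _ => ?_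
      rw [hg.symm x (ee i) (ee k)]
      rfl
    calc ∑ i, (∑ j, gi g x i j * a (ee j)) * g x (ee i) (ee k)
        = ∑ j, a (ee j) * ∑ i, g x (ee i) (ee k) * gi g x i j := by
          simp only [Finset.sum_mul, Finset.mul_sum]
          rw [Finset.sum_comm]
          refine Finset.sum_congr rfl fun i _ => Finset.sum_congr rfl fun j _ => ?_
          ring
      _ = a (ee k) := by
          simp only [h2]
          simp
  rw [expand_basis v]
  simp only [map_sum, map_smul, hk]

theorem shp_contDiff {g : E n → Bl n} (hg : IsMet g) {m : WithTop ℕ∞} (hm : m ≤ ∞)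
    (θ : E n → Dl n) (hθ : ContDiff ℝ m θ) : ContDiff ℝ m fun x => shp g x (θ x) := by
  unfold shp
  refine ContDiff.sum fun i _ => ContDiff.fun_smul (ContDiff.sum fun j _ => ?_) contDiff_const
  exact ((gi_smooth hg i j).of_le hm).mul (hθ.clm_apply contDiff_const)

end shp

theorem hShp (hChr : StChr) : StShp := by
  intro n g Γ hg hΓ
  refine ⟨fun x a v => shp_spec hg x a v, ?_, fun i j => gi_smooth hg i j, ?_, ?_, ?_⟩
  · intro x a b
    unfold ip trg shp
    simp only [map_sum, map_smul, smul_eq_mul, Finset.sum_mul]
    refine Finset.sum_congr rfl fun i _ => Finset.sum_congr rfl fun j _ => ?_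
    ring
  · intro θ hθ
    exact shp_contDiff hg le_rfl θ hθ
  · intro θ hθ
    exact shp_contDiff hg (by norm_num) θ hθ
  · intro θ hθ x u v
    obtain ⟨-, -, hcomp⟩ := hChr n g Γ hg hΓ
    have hX : ContDiff ℝ 1 fun y => shp g y (θ y) := shp_contDiff hg (by norm_num) θ hθ
    have hXd : HasFDerivAt (fun y => shp g y (θ y)) (fderiv ℝ (fun y => shp g y (θ y)) x) x :=
      (hX.differentiable (by norm_num) x).hasFDerivAt
    have hgd : HasFDerivAt g (fderiv ℝ g x) x :=
      (hg.smooth.differentiable (by norm_num) x).hasFDerivAt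
    have hθd : HasFDerivAt θ (fderiv ℝ θ x) x := (hθ.differentiable (by norm_num) x).hasFDerivAt
    have h1 := (hgd.clm_apply hXd).clm_apply (hasFDerivAt_const v x)
    have h2 := hθd.clm_apply (hasFDerivAt_const v x)
    have hfun : (fun y => g y (shp g y (θ y)) v) = fun y => θ y v := by
      funext y
      exact shp_spec hg y (θ y) v
    rw [hfun] at h1
    have h3 := DFunLike.congr_fun (h1.unique h2) u
    simp at h3
    have h4 := hcomp x u (shp g x (θ x)) v
    have h5 := shp_spec hg x (θ x) (Γ x u v)
    unfold cf
    rw [map_add, add_apply]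
    linarith

end Pool.Agent.Helper99.LH
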