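import Pool.Agent.Helper62.LH.StG

/-!
Project LH (MP_087a81_gt), module SMB: mollification, closeness and gradient.
-/

set_option autoImplicit false

namespace Pool.Agent.Helper99.LH

open Helper62.LH
open Set Filter Topology MeasureTheory
open scoped ContDiff

variable {n : ℕ} {g : E n → Bl n}

theorem g_nonneg (hg : IsMet g) (x v : E n) : 0 ≤ g x v v := by
  by_cases h : v = 0
  · rw [h]; simp
  · exact (hg.pos x v h).le

theorem nr_nn (x v : E n) : 0 ≤ nr g x v := Real.sqrt_nonneg _

theorem nr_sq (hg : IsMet g) (x v : E n) : nr g x v ^ 2 = g x v v :=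
  Real.sq_sqrt (g_nonneg hg x v)

theorem cs (hg : IsMet g) (x u w : E n) : g x u w ≤ nr g x u * nr g x w := by
  by_cases hw : w = 0
  · rw [hw]
    simp [nr]
  · have hC : 0 < g x w w := hg.pos x w hw
    have h1 := g_nonneg hg x (g x w w • u - g x u w • w)
    have h2 : g x (g x w w • u - g x u w • w) (g x w w • u - g x u w • w)
        = g x w w * (g x u u * g x w w - g x u w ^ 2) := by
      simp only [map_sub, map_smul, ContinuousLinearMap.sub_apply, ContinuousLinearMap.smul_apply,
        smul_eq_mul]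
      rw [hg.symm x w u]
      ring
    rw [h2] at h1
    have h3 : 0 ≤ g x u u * g x w w - g x u w ^ 2 := nonneg_of_mul_nonneg_right h1 hC
    have h4 : g x u w ^ 2 ≤ (nr g x u * nr g x w) ^ 2 := by
      rw [mul_pow, nr_sq hg, nr_sq hg]
      linarith
    exact (abs_le_of_sq_le_sq' h4 (mul_nonneg (nr_nn x u) (nr_nn x w))).2

theorem nr_add (hg : IsMet g) (x u w : E n) : nr g x (u + w) ≤ nr g x u + nr g x w := by
  have h1 := cs hg x u w
  have h2 : nr g x (u + w) ^ 2 ≤ (nr g x u + nr g x w) ^ 2 := by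
    rw [nr_sq hg]
    have e : g x (u + w) (u + w) = g x u u + 2 * g x u w + g x w w := by
      simp only [map_add, ContinuousLinearMap.add_apply]
      rw [hg.symm x w u]
      ring
    rw [e, ← nr_sq hg x u, ← nr_sq hg x w]
    nlinarith
  exact (abs_le_of_sq_le_sq' h2 (add_nonneg (nr_nn x u) (nr_nn x w))).2

theorem nr_smul (x v : E n) (c : ℝ) : nr g x (c • v) = |c| * nr g x v := by
  unfold nr
  simp only [map_smul, ContinuousLinearMap.smul_apply, smul_eq_mul]
  rw [← mul_assoc, Real.sqrt_mul (mul_self_nonneg c), Real.sqrt_mul_self_eq_abs]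

/-- the distance near a compact set -/
theorem dist_near (hMet : StMet) (hCmp : StCmp) (hg : IsMet g) (K : Set (E n))
    (hK : IsCompact K) : ∃ a : ℝ, 0 < a ∧ a ≤ 1 ∧ ∀ x ∈ K, ∀ y ∈ Metric.closedBall x a,
      ∀ z ∈ Metric.closedBall x a, dg g y z ≤ 11 / 10 * nr g x (z - y) := by
  have hK' : IsCompact (Metric.cthickening 1 K) := hK.cthickening
  obtain ⟨m, M, hm, hM, hmM⟩ := hCmp n g hg _ hK'
  have huc := hK'.uniformContinuousOn_of_continuous hg.smooth.continuous.continuousOn
  rw [Metric.uniformContinuousOn_iff] at huc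
  obtain ⟨a₀, ha₀, huc⟩ := huc (m * (21 / 100)) (by positivity)
  refine ⟨min (a₀ / 2) 1, by positivity, min_le_right _ _, ?_⟩
  intro x hx y hy z hz
  have hxK : x ∈ Metric.cthickening 1 K := Metric.self_subset_cthickening K hx
  have hball : ∀ w ∈ Metric.closedBall x (min (a₀ / 2) 1), ∀ v : E n,
      nr g w v ≤ 11 / 10 * nr g x v := by
    intro w hw v
    rw [Metric.mem_closedBall] at hw
    have hwK : w ∈ Metric.cthickening 1 K :=
      Metric.mem_cthickening_of_dist_le w x 1 K hx (hw.trans (min_le_right _ _))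
    have hd : dist w x < a₀ := by
      have := hw.trans (min_le_left _ _)
      linarith
    have h1 := huc w hwK x hxK hd
    rw [dist_eq_norm] at h1
    have h2 : g w v v - g x v v ≤ m * (21 / 100) * ‖v‖ ^ 2 := by
      calc g w v v - g x v v = (g w - g x) v v := by simp
        _ ≤ ‖(g w - g x) v v‖ := Real.le_norm_self _
        _ ≤ ‖g w - g x‖ * ‖v‖ * ‖v‖ := (g w - g x).le_opNorm₂ v v
        _ ≤ m * (21 / 100) * ‖v‖ * ‖v‖ := by gcongr
        _ = _ := by ring
    have h3 := (hmM x hxK v).1
    have h4 : nr g w v ^ 2 ≤ (11 / 10 * nr g x v) ^ 2 := by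
      rw [mul_pow, nr_sq hg, nr_sq hg]
      nlinarith
    exact (abs_le_of_sq_le_sq' h4 (mul_nonneg (by norm_num) (nr_nn x v))).2
  obtain ⟨hm1, -⟩ := hMet n g hg
  let c : ℝ → E n := fun t => y + t • (z - y)
  have hc : ContDiff ℝ 1 c := by
    unfold c
    fun_prop
  have h1 := hm1 c hc 0 1 zero_le_one
  have hc0 : c 0 = y := by simp [c]
  have hc1 : c 1 = z := by simp [c]
  rw [hc0, hc1] at h1
  have hder : ∀ t, deriv c t = z - y := by
    intro t
    have : HasDerivAt c ((1 : ℝ) • (z - y)) t :=
      ((hasDerivAt_id t).smul_const (z - y)).const_add y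
    rw [this.deriv, one_smul]
  have hmem : ∀ t ∈ Icc (0 : ℝ) 1, c t ∈ Metric.closedBall x (min (a₀ / 2) 1) := by
    intro t ht
    have hconv := convex_closedBall x (min (a₀ / 2) 1)
    have := hconv.add_smul_sub_mem hy hz ht
    exact this
  have hcont : Continuous fun t => nr g (c t) (deriv c t) := by
    simp only [hder]
    unfold nr
    refine Real.continuous_sqrt.comp ?_
    have hgc : Continuous fun t => g (c t) := hg.smooth.continuous.comp hc.continuous
    exact (hgc.clm_apply continuous_const).clm_apply continuous_const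
  refine h1.trans ?_
  have h2 : ∫ τ in (0 : ℝ)..1, nr g (c τ) (deriv c τ)
      ≤ ∫ _τ in (0 : ℝ)..1, 11 / 10 * nr g x (z - y) := by
    refine intervalIntegral.integral_mono_on zero_le_one (hcont.intervalIntegrable _ _)
      intervalIntegrable_const ?_
    intro t ht
    rw [hder]
    exact hball (c t) (hmem t ht) (z - y)
  simpa using h2

theorem hSmb (hCmp : StCmp) (hMet : StMet) (hDlc : StDlc) (hSma : StSma) : StSmb := by
  intro n g hg ρ hρ b hb K hK
  obtain ⟨a, ha, ha1, hdist⟩ := dist_near hMet hCmp hg K hK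
  obtain ⟨m, M, hm, hM, hmM⟩ := hCmp n g hg K hK
  obtain ⟨-, -, hdc⟩ := hDlc n g hg
  obtain ⟨-, -, hd0, hdxx, hdsymm, -⟩ := hMet n g hg
  -- b is continuous
  have hbc : Continuous b := by
    rw [continuous_iff_continuousAt]
    intro x
    rw [ContinuousAt, tendsto_iff_dist_tendsto_zero]
    have h1 : Tendsto (fun y => dg g y x) (𝓝 x) (𝓝 0) := by
      have h2 : Continuous fun y : E n => dg g y x :=
        hdc.comp (continuous_id.prodMk continuous_const)
      have := h2.tendsto x
      rwa [hdxx x] at this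
    refine squeeze_zero (fun y => dist_nonneg) (fun y => ?_) h1
    rw [Real.dist_eq]
    exact hb y x
  set s : ℝ := √M with hs
  have hs0 : 0 < s := Real.sqrt_pos.mpr hM
  set l : ℝ := √m with hl
  have hl0 : 0 < l := Real.sqrt_pos.mpr hm
  have hup : ∀ x ∈ K, ∀ v, nr g x v ≤ s * ‖v‖ := by
    intro x hx v
    have h1 := (hmM x hx v).2
    calc nr g x v ≤ √(M * ‖v‖ ^ 2) := Real.sqrt_le_sqrt h1
      _ = s * ‖v‖ := by rw [Real.sqrt_mul hM.le, Real.sqrt_sq (norm_nonneg _)]
  have hlo : ∀ x ∈ K, ∀ v, l * ‖v‖ ≤ nr g x v := by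
    intro x hx v
    have h1 := (hmM x hx v).1
    calc l * ‖v‖ = √(m * ‖v‖ ^ 2) := by rw [Real.sqrt_mul hm.le, Real.sqrt_sq (norm_nonneg _)]
      _ ≤ nr g x v := Real.sqrt_le_sqrt h1
  refine ⟨min (a / 2) (min (1 / (2 * s)) (l / (2 * s))), by positivity, ?_⟩
  intro δ hδ hδ0 x hx hδx hδ'
  have hη1 : δ x ≤ a / 2 := hδx.trans (min_le_left _ _)
  have hη2 : δ x ≤ 1 / (2 * s) := hδx.trans ((min_le_right _ _).trans (min_le_left _ _))
  have hη3 : ‖fderiv ℝ δ x‖ ≤ l / (2 * s) :=
    hδ'.trans ((min_le_right _ _).trans (min_le_right _ _))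
  -- integrability
  have hρc : HasCompactSupport ρ := by
    refine HasCompactSupport.of_support_subset_isCompact (isCompact_closedBall (0 : E n) 1) ?_
    intro y hy
    rw [Metric.mem_closedBall, dist_zero_right]
    by_contra hcon
    push Not at hcon
    exact hy (hρ.supp y hcon)
  have hρi : Integrable ρ := hρ.smooth.continuous.integrable_of_hasCompactSupport hρc
  have hint : ∀ (u : E n) (r : ℝ), Integrable fun y => ρ y * b (u - r • y) := by
    intro u r
    have h1 : Continuous fun y => ρ y * b (u - r • y) :=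
      hρ.smooth.continuous.mul (hbc.comp (continuous_const.sub (continuous_id.const_smul r)))
    exact h1.integrable_of_hasCompactSupport hρc.mul_right
  -- comparison of two mollifications
  have hcomp : ∀ (u u' : E n) (r r' : ℝ) (B : ℝ), 0 ≤ B →
      (∀ y, ‖y‖ ≤ 1 → |b (u - r • y) - b (u' - r' • y)| ≤ B) →
      |(∫ y, ρ y * b (u - r • y)) - ∫ y, ρ y * b (u' - r' • y)| ≤ B := by
    intro u u' r r' B hB hyy
    rw [← integral_sub (hint u r) (hint u' r')]
    have h1 : ∀ y, |ρ y * b (u - r • y) - ρ y * b (u' - r' • y)| ≤ ρ y * B := by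
      intro y
      rw [← mul_sub, abs_mul, abs_of_nonneg (hρ.nonneg y)]
      by_cases hy : ‖y‖ ≤ 1
      · exact mul_le_mul_of_nonneg_left (hyy y hy) (hρ.nonneg y)
      · push Not at hy
        rw [hρ.supp y hy]
        simp
    calc |∫ y, (ρ y * b (u - r • y) - ρ y * b (u' - r' • y))|
        ≤ ∫ y, |ρ y * b (u - r • y) - ρ y * b (u' - r' • y)| := abs_integral_le_integral_abs
      _ ≤ ∫ y, ρ y * B := by
          refine integral_mono_of_nonneg (Eventually.of_forall fun y => abs_nonneg _)
            (hρi.mul_const B) (Eventually.of_forall h1)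
      _ = B := by rw [integral_mul_const, hρ.int, one_mul]
  have hconst : ∫ y, ρ y * b (x - (0 : ℝ) • y) = b x := by
    simp only [zero_smul, sub_zero]
    rw [integral_mul_const, hρ.int, one_mul]
  refine ⟨?_, ?_⟩
  · -- closeness
    unfold sm
    rw [← hconst]
    have key := hcomp x x (δ x) 0 1 zero_le_one (fun y hy => by
      rw [zero_smul, sub_zero]
      have hmem : x - δ x • y ∈ Metric.closedBall x a := by
        rw [Metric.mem_closedBall, dist_eq_norm, sub_sub_cancel_left, norm_neg, norm_smul,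
          Real.norm_eq_abs, abs_of_pos (hδ0 x)]
        have : δ x * ‖y‖ ≤ δ x * 1 := mul_le_mul_of_nonneg_left hy (hδ0 x).le
        linarith
      have h1 := hdist x hx _ hmem x (Metric.mem_closedBall_self ha.le)
      refine (hb _ _).trans (h1.trans ?_)
      rw [sub_sub_cancel, nr_smul, abs_of_pos (hδ0 x)]
      have h2 := hup x hx y
      have h3 : nr g x y ≤ s := h2.trans (by nlinarith)
      have h4 : δ x * nr g x y ≤ 1 / (2 * s) * s :=
        mul_le_mul hη2 h3 (nr_nn x y) (by positivity)
      have h5 : 1 / (2 * s) * s = 1 / 2 := by field_simp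
      linarith)
    rw [hconst] at key ⊢
    exact key
  · -- gradient
    intro v
    have hf : ContDiff ℝ ∞ (sm ρ b δ) := (hSma n).2 ρ hρ b δ hbc hδ hδ0
    have hfd : HasDerivAt (fun h : ℝ => sm ρ b δ (x + h • v)) (fderiv ℝ (sm ρ b δ) x v) 0 := by
      have h1 : HasFDerivAt (sm ρ b δ) (fderiv ℝ (sm ρ b δ) x) (x + (0 : ℝ) • v) := by
        rw [zero_smul, add_zero]
        exact (hf.differentiable (by norm_num) x).hasFDerivAt
      have h2 : HasDerivAt (fun h : ℝ => x + h • v) ((1 : ℝ) • v) 0 :=
        ((hasDerivAt_id (0 : ℝ)).smul_const v).const_add x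
      rw [one_smul] at h2
      exact h1.comp_hasDerivAt (0 : ℝ) h2
    have hdd : HasDerivAt (fun h : ℝ => δ (x + h • v)) (fderiv ℝ δ x v) 0 := by
      have h1 : HasFDerivAt δ (fderiv ℝ δ x) (x + (0 : ℝ) • v) := by
        rw [zero_smul, add_zero]
        exact (hδ.differentiable (by norm_num) x).hasFDerivAt
      have h2 : HasDerivAt (fun h : ℝ => x + h • v) ((1 : ℝ) • v) 0 :=
        ((hasDerivAt_id (0 : ℝ)).smul_const v).const_add x
      rw [one_smul] at h2
      exact h1.comp_hasDerivAt (0 : ℝ) h2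
    have t1 := hasDerivAt_iff_tendsto_slope_zero.mp hfd
    have t2 := hasDerivAt_iff_tendsto_slope_zero.mp hdd
    simp only [zero_add, zero_smul, add_zero, smul_eq_mul] at t1 t2
    have hδc : ContinuousAt (fun h : ℝ => δ (x + h • v)) 0 := hdd.continuousAt
    have e1 : ∀ᶠ h : ℝ in 𝓝 0, δ (x + h • v) < 3 * a / 4 := by
      refine hδc.eventually (gt_mem_nhds ?_)
      simp only [zero_smul, add_zero]
      linarith
    have e2 : ∀ᶠ h : ℝ in 𝓝 0, ‖h • v‖ < a / 4 := by
      have : ContinuousAt (fun h : ℝ => ‖h • v‖) 0 := by fun_prop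
      refine this.eventually (gt_mem_nhds ?_)
      simp only [zero_smul, norm_zero]
      linarith
    have hbound : ∀ᶠ h : ℝ in 𝓝[≠] 0, |h⁻¹ * (sm ρ b δ (x + h • v) - sm ρ b δ x)|
        ≤ 11 / 10 * (nr g x v + |h⁻¹ * (δ (x + h • v) - δ x)| * s) := by
      filter_upwards [self_mem_nhdsWithin, nhdsWithin_le_nhds e1, nhdsWithin_le_nhds e2]
        with h hh0 hh1 hh2
      have hhne : h ≠ 0 := hh0
      have hpos : 0 < |h| := abs_pos.mpr hhne
      have key := hcomp (x + h • v) x (δ (x + h • v)) (δ x)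
        (11 / 10 * (|h| * nr g x v + |δ (x + h • v) - δ x| * s))
        (by have := nr_nn (g := g) x v; positivity) (fun y hy => by
          have hm1 : x + h • v - δ (x + h • v) • y ∈ Metric.closedBall x a := by
            rw [Metric.mem_closedBall, dist_eq_norm]
            have e : x + h • v - δ (x + h • v) • y - x = h • v - δ (x + h • v) • y := by abel
            rw [e]
            refine (norm_sub_le _ _).trans ?_
            rw [norm_smul (δ (x + h • v)), Real.norm_eq_abs, abs_of_pos (hδ0 _)]
            have : δ (x + h • v) * ‖y‖ ≤ δ (x + h • v) * 1 :=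
              mul_le_mul_of_nonneg_left hy (hδ0 _).le
            linarith
          have hm2 : x - δ x • y ∈ Metric.closedBall x a := by
            rw [Metric.mem_closedBall, dist_eq_norm, sub_sub_cancel_left, norm_neg, norm_smul,
              Real.norm_eq_abs, abs_of_pos (hδ0 x)]
            have : δ x * ‖y‖ ≤ δ x * 1 := mul_le_mul_of_nonneg_left hy (hδ0 x).le
            linarith
          have h1 := hdist x hx _ hm2 _ hm1
          rw [hdsymm] at h1
          refine (hb _ _).trans (h1.trans ?_)
          have e : x + h • v - δ (x + h • v) • y - (x - δ x • y)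
              = h • v + (-(δ (x + h • v) - δ x)) • y := by
            module
          rw [e]
          have h2 := nr_add hg x (h • v) ((-(δ (x + h • v) - δ x)) • y)
          rw [nr_smul, nr_smul, abs_neg] at h2
          have h3 : nr g x y ≤ s := (hup x hx y).trans (by nlinarith)
          have h4 : |δ (x + h • v) - δ x| * nr g x y ≤ |δ (x + h • v) - δ x| * s :=
            mul_le_mul_of_nonneg_left h3 (abs_nonneg _)
          linarith)
      rw [abs_mul, abs_mul, abs_inv]
      have key' : |sm ρ b δ (x + h • v) - sm ρ b δ x|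
          ≤ 11 / 10 * (|h| * nr g x v + |δ (x + h • v) - δ x| * s) := key
      calc |h|⁻¹ * |sm ρ b δ (x + h • v) - sm ρ b δ x|
          ≤ |h|⁻¹ * (11 / 10 * (|h| * nr g x v + |δ (x + h • v) - δ x| * s)) :=
            mul_le_mul_of_nonneg_left key' (by positivity)
        _ = 11 / 10 * (nr g x v + |h|⁻¹ * |δ (x + h • v) - δ x| * s) := by
            field_simp
    have hlim := le_of_tendsto_of_tendsto t1.abs
      (((t2.abs.mul_const s).const_add (nr g x v)).const_mul (11 / 10)) hbound
    refine hlim.trans ?_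
    have h1 : |fderiv ℝ δ x v| ≤ l / (2 * s) * ‖v‖ := by
      have := (fderiv ℝ δ x).le_opNorm v
      rw [Real.norm_eq_abs] at this
      exact this.trans (mul_le_mul_of_nonneg_right hη3 (norm_nonneg _))
    have h2 := hlo x hx v
    have h3 : |fderiv ℝ δ x v| * s ≤ nr g x v / 2 := by
      calc |fderiv ℝ δ x v| * s ≤ l / (2 * s) * ‖v‖ * s := mul_le_mul_of_nonneg_right h1 hs0.le
        _ = l * ‖v‖ / 2 := by field_simp
        _ ≤ nr g x v / 2 := by linarith
    have h4 := nr_nn (g := g) x v
    linarith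

end Pool.Agent.Helper99.LH
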