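import Pool.Agent.Helper62.LH.StV

/-!
Project LH (MP_087a81_gt), module VOL: volume of the image of a map Lipschitz for the distance.
-/

set_option autoImplicit false

namespace Pool.Agent.Helper99.LH

open Helper62.LH
open Set Filter Topology MeasureTheory
open scoped ContDiff ENNReal

theorem dg_self {n : ℕ} (g : E n → Bl n) (x : E n) : dg g x x = 0 := by
  have hnn : ∀ l ∈ {l : ℝ | ∃ c : ℝ → E n, ContDiff ℝ 1 c ∧ c 0 = x ∧ c 1 = x ∧ l = len g c},
      0 ≤ l := by
    rintro l ⟨c, -, -, -, rfl⟩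
    exact intervalIntegral.integral_nonneg zero_le_one fun t _ => Real.sqrt_nonneg _
  refine le_antisymm (csInf_le ⟨0, hnn⟩ ⟨fun _ => x, contDiff_const, rfl, rfl, ?_⟩)
    (Real.sInf_nonneg hnn)
  unfold len nr
  simp

theorem vol_eta (hDlc : StDlc) (hVa : StVa) (n : ℕ) (g : E n → Bl n) (hg : IsMet g) (S : Set (E n))
    (ψ : E n → E n) (Λ : ℝ) (hΛ : 0 < Λ)
    (hψ : ∀ z ∈ S, ∀ z' ∈ S, dg g (ψ z) (ψ z') ≤ Λ * dg g z z') (η : ℝ) (hη : 0 < η)
    (hη1 : η < 1) :
    mg g (ψ '' S) ≤ ENNReal.ofReal (((1 + η) / (1 - η)) ^ (n + 1) * Λ ^ n) * mg g S := by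
  obtain ⟨hd1, -, hdc⟩ := hDlc n g hg
  set C : ℝ≥0∞ := ENNReal.ofReal (((1 + η) / (1 - η)) ^ (n + 1) * Λ ^ n) with hC
  -- continuity of ψ on S
  have hcont : ContinuousOn ψ S := by
    intro z hz
    rw [ContinuousWithinAt, Metric.tendsto_nhds]
    intro ε hε
    obtain ⟨δ, hδ, hδ'⟩ := hd1 (ψ z) ε hε
    have hc : Continuous fun z' : E n => Λ * dg g z z' :=
      continuous_const.mul (hdc.comp (continuous_const.prodMk continuous_id))
    have h0 : ∀ᶠ z' in 𝓝 z, Λ * dg g z z' < δ := by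
      refine hc.continuousAt.eventually (gt_mem_nhds ?_)
      change Λ * dg g z z < δ
      rw [dg_self, mul_zero]
      exact hδ
    filter_upwards [nhdsWithin_le_nhds h0, self_mem_nhdsWithin] with z' h1 h2
    rw [dist_eq_norm]
    exact hδ' _ ((hψ z hz z' h2).trans_lt h1)
  -- local estimates
  have hloc : ∀ z ∈ S, ∃ O : Set (E n), IsOpen O ∧ z ∈ O ∧ ∀ T : Set (E n), T ⊆ S → T ⊆ O →
      mg g (ψ '' T) ≤ C * mg g T := by
    intro z hz
    obtain ⟨r, hr, hVr⟩ := hVa n g hg z (ψ z) η hη hη1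
    have h1 : ψ ⁻¹' Metric.ball (ψ z) r ∈ 𝓝[S] z :=
      (hcont z hz) (Metric.ball_mem_nhds _ hr)
    rw [mem_nhdsWithin] at h1
    obtain ⟨U, hU, hzU, hUS⟩ := h1
    refine ⟨U ∩ Metric.ball z r, hU.inter Metric.isOpen_ball, ⟨hzU, Metric.mem_ball_self hr⟩, ?_⟩
    intro T hTS hTO
    refine hVr T ψ Λ hΛ.le (fun y hy => (hTO hy).2) ?_
      (fun a ha b hb => hψ a (hTS ha) b (hTS hb))
    rintro _ ⟨y, hy, rfl⟩
    exact hUS ⟨(hTO hy).1, hTS hy⟩
  rcases S.eq_empty_or_nonempty with hS | hS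
  · rw [hS]; simp
  choose! O hO using hloc
  obtain ⟨t, htS, htc, hcov⟩ := TopologicalSpace.countable_cover_nhdsWithin (f := O) (s := S)
    (fun z hz => nhdsWithin_le_nhds ((hO z hz).1.mem_nhds (hO z hz).2.1))
  have htne : t.Nonempty := by
    by_contra hne
    rw [not_nonempty_iff_eq_empty] at hne
    rw [hne] at hcov
    simp only [biUnion_empty] at hcov
    exact hS.not_subset_empty hcov
  obtain ⟨e, he⟩ := htc.exists_eq_range htne
  have heS : ∀ i, e i ∈ S := fun i => htS (he ▸ mem_range_self i)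
  let M : ℕ → Set (E n) := disjointed fun i => O (e i)
  have hMm : ∀ i, MeasurableSet (M i) :=
    MeasurableSet.disjointed fun i => (hO _ (heS i)).1.measurableSet
  have hMd : Pairwise (Function.onFun Disjoint M) := disjoint_disjointed _
  have hMU : S ⊆ ⋃ i, M i := by
    rw [iUnion_disjointed]
    refine hcov.trans ?_
    rw [he, biUnion_range]
  have hstep : ∀ i, mg g (ψ '' (S ∩ M i)) ≤ C * mg g (S ∩ M i) := by
    intro i
    refine (hO _ (heS i)).2.2 (S ∩ M i) inter_subset_left ?_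
    exact inter_subset_right.trans (disjointed_subset _ i)
  calc mg g (ψ '' S) ≤ mg g (⋃ i, ψ '' (S ∩ M i)) := by
        refine measure_mono ?_
        rw [← image_iUnion, ← inter_iUnion]
        exact image_mono (subset_inter Subset.rfl hMU)
    _ ≤ ∑' i, mg g (ψ '' (S ∩ M i)) := measure_iUnion_le _
    _ ≤ ∑' i, C * mg g (S ∩ M i) := ENNReal.tsum_le_tsum hstep
    _ = C * ∑' i, mg g (S ∩ M i) := ENNReal.tsum_mul_left
    _ ≤ C * mg g S := by
        refine mul_le_mul_right ?_ _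
        calc ∑' i, mg g (S ∩ M i) = ∑' i, (mg g).restrict S (M i) := by
              refine tsum_congr fun i => ?_
              rw [Measure.restrict_apply (hMm i), inter_comm]
          _ = (mg g).restrict S (⋃ i, M i) := (measure_iUnion hMd hMm).symm
          _ ≤ (mg g).restrict S univ := measure_mono (subset_univ _)
          _ = mg g S := by rw [Measure.restrict_apply_univ]

theorem hVol (hDlc : StDlc) (hVa : StVa) : StVol := by
  intro n g hg S ψ Λ hΛ hψ
  by_cases hS : mg g S = ⊤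
  · rw [hS, ENNReal.mul_top]
    · exact le_top
    · rw [ne_eq, ENNReal.ofReal_eq_zero, not_le]
      positivity
  · have hlim : Tendsto (fun η : ℝ => ENNReal.ofReal (((1 + η) / (1 - η)) ^ (n + 1) * Λ ^ n)
        * mg g S) (𝓝[>] 0) (𝓝 (ENNReal.ofReal (Λ ^ n) * mg g S)) := by
      refine ENNReal.Tendsto.mul_const ?_ (Or.inr hS)
      refine ENNReal.tendsto_ofReal ?_
      have h1 : ContinuousAt (fun η : ℝ => ((1 + η) / (1 - η)) ^ (n + 1) * Λ ^ n) 0 := by
        have : (1 : ℝ) - 0 ≠ 0 := by norm_num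
        fun_prop (disch := assumption)
      have h2 := h1.tendsto
      simp only [add_zero, sub_zero, div_one, one_pow, one_mul] at h2
      exact h2.mono_left nhdsWithin_le_nhds
    refine ge_of_tendsto hlim ?_
    have hmem : Ioo (0 : ℝ) 1 ∈ 𝓝[>] (0 : ℝ) := Ioo_mem_nhdsGT zero_lt_one
    filter_upwards [hmem] with η hη
    exact vol_eta hDlc hVa n g hg S ψ Λ hΛ hψ η hη.1 hη.2

end Pool.Agent.Helper99.LH
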