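import Pool.Agent.Helper62.LH.StS

/-!
Project LH (MP_087a81_gt), module DUA: the star is an isometry and its square is plus or minus one.
-/

set_option autoImplicit false

namespace Pool.Agent.Helper99.LH

open Helper62.LH
open Set Filter Topology MeasureTheory
open scoped ContDiff

/-- the star formula in an orthonormal frame -/
theorem dua_star (hCfr : StCfr) (hEpf : StEpf) {n k l : ℕ} (h : k + l = n) (h' : l + k = n)
    (g : E n → Bl n) (x : E n) (f : Fin n → E n) (hf : Onb g x f) (A : E n [⋀^Fin k]→L[ℝ] ℝ)
    (w : Fin l → E n) :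
    ∑ I : Fin k → Fin n, ∑ J : Fin k → Fin n,
      (∏ a, gi g x (I a) (J a)) *
        (A (fun a => ee (J a)) * vdet (ap h (fun a => ee (I a)) w))
      = ∑ I : Fin k → Fin n, A (fun a => f (I a)) * vdet (ap h (fun a => f (I a)) w) := by
  obtain ⟨B, hB⟩ := (hEpf n k l h h').2.2.2 w
  have h1 := hCfr n g x f hf k B.toAlternatingMap.toMultilinearMap
    A.toAlternatingMap.toMultilinearMap
  have e1 : ∀ v : Fin k → E n, B.toAlternatingMap.toMultilinearMap v = vdet (ap h v w) := hB
  have e2 : ∀ v : Fin k → E n, A.toAlternatingMap.toMultilinearMap v = A v := fun v => rfl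
  simp only [e1, e2] at h1
  rw [show (∑ I : Fin k → Fin n, A (fun a => f (I a)) * vdet (ap h (fun a => f (I a)) w))
      = ∑ I : Fin k → Fin n, vdet (ap h (fun a => f (I a)) w) * A (fun a => f (I a)) from
      Finset.sum_congr rfl fun I _ => mul_comm _ _, ← h1]
  refine Finset.sum_congr rfl fun I _ => Finset.sum_congr rfl fun J _ => ?_
  rw [mul_comm (A _)]

/-- the norm in an orthonormal frame -/
theorem dua_nsq (hCfr : StCfr) {n k : ℕ}
    (g : E n → Bl n) (x : E n) (f : Fin n → E n) (hf : Onb g x f) (A : E n [⋀^Fin k]→L[ℝ] ℝ) :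
    nsq g k x A = (∑ I : Fin k → Fin n, A (fun a => f (I a)) * A (fun a => f (I a))) /
      k.factorial := by
  have h1 := hCfr n g x f hf k A.toAlternatingMap.toMultilinearMap
    A.toAlternatingMap.toMultilinearMap
  have e2 : ∀ v : Fin k → E n, A.toAlternatingMap.toMultilinearMap v = A v := fun v => rfl
  simp only [e2] at h1
  rw [nsq, h1]

/-- expansion of a multilinear map in an orthonormal frame -/
theorem dua_expand {n k : ℕ} (g : E n → Bl n) (x : E n) (f : Fin n → E n) (hf : Onb g x f)
    (A : E n [⋀^Fin k]→L[ℝ] ℝ) (u : Fin k → E n) :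
    A u = ∑ K : Fin k → Fin n, (∏ a, g x (u a) (f (K a))) * A (fun a => f (K a)) := by
  have e2 : ∀ v : Fin k → E n, A.toAlternatingMap.toMultilinearMap v = A v := fun v => rfl
  have h1 : u = fun a => ∑ i, g x (u a) (f i) • f i := by
    funext a
    exact (hf.expd (u a)).symm
  conv_lhs => rw [h1]
  rw [← e2, MultilinearMap.map_sum]
  refine Finset.sum_congr rfl fun K _ => ?_
  rw [MultilinearMap.map_smul_univ, smul_eq_mul, e2]

/-- the sign identity for alternating coefficients -/
theorem dua_eps (hEps : StEps) {n k l : ℕ} (h : k + l = n) (f : Fin n → E n)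
    (A : E n [⋀^Fin k]→L[ℝ] ℝ) (K : Fin k → Fin n) :
    ∑ J : Fin l → Fin n, (∑ I : Fin k → Fin n, A (fun a => f (I a)) * eps h I J) * eps h K J
      = k.factorial * l.factorial * A (fun a => f (K a)) := by
  have h1 := hEps n k l h (fun I => A (fun a => f (I a))) (by
    intro I hI
    have : ¬ Function.Injective (fun a => f (I a)) := by
      intro hc
      apply hI
      intro a b hab
      exact hc (by simp only [hab])
    exact A.toAlternatingMap.map_eq_zero_of_not_injective _ this) (by
    intro I σ
    have h2 := A.toAlternatingMap.map_perm (fun a => f (I a)) σ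
    have h3 : (A fun a => f ((I ∘ σ) a)) = A.toAlternatingMap ((fun a => f (I a)) ∘ σ) := rfl
    rw [h3, h2]
    have h4 : A.toAlternatingMap (fun a => f (I a)) = A (fun a => f (I a)) := rfl
    rw [h4]
    rcases Int.units_eq_one_or (Equiv.Perm.sign σ) with hs | hs <;> rw [hs] <;> simp) K
  rw [← h1, Finset.sum_comm]
  refine Finset.sum_congr rfl fun J _ => ?_
  rw [Finset.sum_mul]
  refine Finset.sum_congr rfl fun I _ => ?_
  ring

theorem hDua (hOnb : StOnb) (hCfr : StCfr) (hEps : StEps) (hEpf : StEpf) : StDua := by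
  intro n k l h h' g hg
  obtain ⟨s, hs, hs2⟩ := (hEpf n k l h h').1
  refine ⟨s, hs, ?_⟩
  intro φ τ hst
  have hk0 : (k.factorial : ℝ) ≠ 0 := by exact_mod_cast k.factorial_ne_zero
  have hl0 : (l.factorial : ℝ) ≠ 0 := by exact_mod_cast l.factorial_ne_zero
  -- values of `τ x` on the frame
  have hT : ∀ (x : E n) (f : Fin n → E n), Onb g x f → ∀ J : Fin l → Fin n,
      τ x (fun b => f (J b)) = vol g x * vdet f / k.factorial *
        ∑ I : Fin k → Fin n, φ x (fun a => f (I a)) * eps h I J := by
    intro x f hf J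
    rw [hst x (fun b => f (J b)), dua_star hCfr hEpf h h' g x f hf (φ x)]
    rw [Finset.mul_sum, Finset.mul_sum]
    refine Finset.sum_congr rfl fun I _ => ?_
    rw [(hEpf n k l h h').2.1 f I J]
    ring
  constructor
  · intro x
    obtain ⟨f, hf⟩ := hOnb n g hg x
    rw [dua_nsq hCfr g x f hf, dua_nsq hCfr g x f hf]
    have hd := hf.det
    have h1 : ∑ J : Fin l → Fin n, τ x (fun a => f (J a)) * τ x (fun a => f (J a))
        = (1 / (k.factorial : ℝ) ^ 2) * ∑ K : Fin k → Fin n, φ x (fun a => f (K a)) *
          (k.factorial * l.factorial * φ x (fun a => f (K a))) := by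
      have h2 : ∀ J : Fin l → Fin n, τ x (fun a => f (J a)) * τ x (fun a => f (J a))
          = (1 / (k.factorial : ℝ) ^ 2) * ∑ K : Fin k → Fin n, φ x (fun a => f (K a)) *
            ((∑ I : Fin k → Fin n, φ x (fun a => f (I a)) * eps h I J) * eps h K J) := by
        intro J
        have h3 : ∑ K : Fin k → Fin n, φ x (fun a => f (K a)) *
            ((∑ I : Fin k → Fin n, φ x (fun a => f (I a)) * eps h I J) * eps h K J)
            = (∑ I : Fin k → Fin n, φ x (fun a => f (I a)) * eps h I J) *
              (∑ I : Fin k → Fin n, φ x (fun a => f (I a)) * eps h I J) := by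
          conv_rhs => rw [Finset.mul_sum]
          refine Finset.sum_congr rfl fun K _ => ?_
          ring
        rw [hT x f hf J, h3]
        set S := ∑ I : Fin k → Fin n, φ x (fun a => f (I a)) * eps h I J
        calc vol g x * vdet f / k.factorial * S * (vol g x * vdet f / k.factorial * S)
            = (vol g x * vdet f) ^ 2 * (1 / (k.factorial : ℝ) ^ 2 * (S * S)) := by ring
          _ = _ := by rw [hd, one_mul]
      rw [Finset.sum_congr rfl fun J _ => h2 J, ← Finset.mul_sum, Finset.sum_comm]
      congr 1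
      refine Finset.sum_congr rfl fun K _ => ?_
      rw [← Finset.mul_sum, dua_eps hEps h f (φ x) K]
    rw [h1]
    have h4 : ∑ K : Fin k → Fin n, φ x (fun a => f (K a)) *
          (k.factorial * l.factorial * φ x (fun a => f (K a)))
        = (k.factorial * l.factorial : ℝ) * ∑ K : Fin k → Fin n,
          φ x (fun a => f (K a)) * φ x (fun a => f (K a)) := by
      rw [Finset.mul_sum]
      refine Finset.sum_congr rfl fun K _ => ?_
      ring
    rw [h4]
    field_simp
  · intro x u
    obtain ⟨f, hf⟩ := hOnb n g hg x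
    have hd := hf.det
    rw [dua_star hCfr hEpf h' h g x f hf (τ x) u]
    have hB : ∀ J : Fin l → Fin n, vdet (ap h' (fun a => f (J a)) u)
        = ∑ K : Fin k → Fin n, (∏ a, g x (u a) (f (K a))) * (vdet f * (s * eps h K J)) := by
      intro J
      obtain ⟨B, hB⟩ := (hEpf n l k h' h).2.2.1 (fun a => f (J a))
      rw [← hB u, dua_expand g x f hf B u]
      refine Finset.sum_congr rfl fun K _ => ?_
      rw [hB, (hEpf n l k h' h).2.1 f J K]
      have h5 : eps h' J K = s * eps h K J := hs2 _ _
      rw [h5]
    have h6 : ((s • φ x) u : ℝ) = s * φ x u := by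
      simp
    rw [show ((fun x => s • φ x) x) u = s * φ x u from h6, dua_expand g x f hf (φ x) u]
    simp only [hB]
    rw [show (∑ J : Fin l → Fin n, τ x (fun a => f (J a)) *
        ∑ K : Fin k → Fin n, (∏ a, g x (u a) (f (K a))) * (vdet f * (s * eps h K J)))
        = ∑ K : Fin k → Fin n, ∑ J : Fin l → Fin n, τ x (fun a => f (J a)) *
          ((∏ a, g x (u a) (f (K a))) * (vdet f * (s * eps h K J))) from by
        rw [Finset.sum_comm]
        refine Finset.sum_congr rfl fun J _ => ?_
        rw [Finset.mul_sum]]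
    rw [Finset.mul_sum, Finset.mul_sum]
    refine Finset.sum_congr rfl fun K _ => ?_
    have h7 : ∑ J : Fin l → Fin n, τ x (fun a => f (J a)) *
          ((∏ a, g x (u a) (f (K a))) * (vdet f * (s * eps h K J)))
        = (vol g x * vdet f * vdet f * s * (∏ a, g x (u a) (f (K a))) / k.factorial) *
          ∑ J : Fin l → Fin n, (∑ I : Fin k → Fin n, φ x (fun a => f (I a)) * eps h I J) *
            eps h K J := by
      rw [Finset.mul_sum]
      refine Finset.sum_congr rfl fun J _ => ?_
      rw [hT x f hf J]
      ring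
    rw [h7, dua_eps hEps h f (φ x) K]
    have h8 : vol g x / l.factorial * (vol g x * vdet f * vdet f * s *
        (∏ a, g x (u a) (f (K a))) / k.factorial * (k.factorial * l.factorial *
          φ x (fun a => f (K a))))
        = (vol g x * vdet f) ^ 2 * (s * ((∏ a, g x (u a) (f (K a))) * φ x (fun a => f (K a)))) := by
      field_simp
    rw [h8, hd, one_mul]

end Pool.Agent.Helper99.LH
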